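import Pool.Agent.H874R2.Retr3

/-!
`MP_85483e_gt`: for cones `M` over infinite compact metrizable totally disconnected spaces (in
particular over spaces with exactly one limit point) `M` is a continuum which is not locally
connected and `C(M)` is a retract of `2^M`.
-/

namespace Pool.Agent.Results.MP_85483e_gt.ConeRetraction

open Set TopologicalSpace Filter Helper874.Retr

universe u

theorem result (Z : Type u) [TopologicalSpace Z] [CompactSpace Z] [MetrizableSpace Z]
    (hZ : (TotallyDisconnectedSpace Z ∧ Infinite Z) ∨ ∃! z : Z, AccPt z (𝓟 (univ : Set Z))) :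
    (CompactSpace (Cone Z) ∧ ConnectedSpace (Cone Z) ∧ MetrizableSpace (Cone Z)) ∧
      ¬ LocallyConnectedSpace (Cone Z) ∧ HyperRetract (Cone Z) := by
  have h : TotallyDisconnectedSpace Z ∧ Infinite Z := by
    rcases hZ with h | h
    · exact h
    · exact ⟨totallyDisconnected_of_one_limit h, infinite_of_one_limit h⟩
  obtain ⟨h1, h2⟩ := h
  exact ⟨⟨inferInstance, cone_connected, cone_metrizable Z⟩, cone_not_lc Z, cone_hyperRetract Z⟩

end Pool.Agent.Results.MP_85483e_gt.ConeRetraction
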